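import Mathlib

/-!
# The virtual unknotting number equals the virtual unknotting sequence number

A virtual knot diagram is recorded by its signed Gauss word: going once around the knot, one lists
the passages through the classical crossings, each with the name of the crossing, its sign and
whether it is the over- or the under-passage; virtual crossings are not recorded. Two virtual knot
diagrams in the plane have the same Gauss word (up to rotation and renaming) exactly when they are
related by planar isotopy, virtual Reidemeister moves and mixed moves, and virtual knots are the
classes of Gauss words modulo the three classical Reidemeister moves (Goussarov, Polyak, Viro;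
Kauffman). Virtualizing a classical crossing removes its two passages from the Gauss word.

The proof. Suppose that virtualizing the crossings `S` of a diagram `E` gives a diagram which
reduces to `D` by deletions of the first and second Reidemeister moves only. Such deletions commute
with the virtualization of crossings of `D`. If `D` is changed by a Reidemeister move, `E` can be
replaced by an equivalent diagram in the same relation to the new `D`: deletions need no change of
`E`, creations are made in `E` as well, and for a third move one first creates parallel copies of
the three chords (in `E` and in `D`) next to each other, makes the third move with the copies in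
`E`, and the old chords then cancel in `D` by second Reidemeister moves.
-/

open List

namespace Pool.Agent.H.MP_f8820e_gt

/-- A passage of the knot through a classical crossing: the name of the crossing, its sign
(`true` for a positive crossing) and whether this is the over-passage (arrow tail, `isOver = true`)
or the under-passage (arrow head, `isOver = false`). -/
structure Passage where
  label : ℕ
  sign : Bool
  isOver : Bool
deriving DecidableEq

/-- The other passage through the same crossing. -/
def Passage.flip (p : Passage) : Passage := ⟨p.label, p.sign, !p.isOver⟩

/-- Renaming a crossing. -/
def Passage.rename (f : ℕ → ℕ) (p : Passage) : Passage := ⟨f p.label, p.sign, p.isOver⟩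

/-- A list of passages is a signed Gauss word if every crossing occurring in it is passed exactly
twice, once over and once under, with the same sign. -/
def IsGaussWord (w : List Passage) : Prop :=
  w.Nodup ∧ (∀ p ∈ w, p.flip ∈ w) ∧ ∀ p ∈ w, ∀ q ∈ w, p.label = q.label → q = p ∨ q = p.flip

/-- The two-letter word `p q` if `e` is true and `q p` otherwise. -/
def ordered (e : Bool) (p q : Passage) : List Passage := if e then [p, q] else [q, p]

/-- The moves on words of passages: rotation of the cyclic word, renaming of the crossings, and the
three Reidemeister moves in all their oriented versions (as the word is cyclic, a move may be
assumed to involve the beginning of the word).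

* `r1` creates a kink: a new crossing whose two passages follow each other.
* `r2` creates two crossings `p`, `q` of opposite signs between two strands, one of which passes
  over at both; on each of the two strands the order of the two passages is arbitrary.
* `r3` is the move on a triangle formed by three strands. The first strand (letters `a`, `b`) meets
  the second strand (letters `a.flip`, `c`) at the crossing `a` and the third strand (letters
  `b.flip`, `c.flip`) at the crossing `b`, and the second and third strands meet at the crossing
  `c`. The flags `a.isOver = b.isOver = c.isOver` say that the first strand is the top one and the
  third is the bottom one, or the other way round. The move reverses the order of the two passages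
  on each strand; the conditions `h₂`, `h₃` on signs and orders are those of a triangle of three
  oriented lines in the plane.

That the crossings created by `r1` and `r2` are new ones is ensured below by requiring all words to
be Gauss words. -/
inductive Move : List Passage → List Passage → Prop
  | rotate (u v : List Passage) : Move (u ++ v) (v ++ u)
  | rename (σ : Equiv.Perm ℕ) (w : List Passage) : Move w (w.map (Passage.rename σ))
  | r1 (u : List Passage) (p : Passage) : Move u ([p, p.flip] ++ u)
  | r2 (u v : List Passage) (p q : Passage) (e₁ e₂ : Bool)
      (hover : q.isOver = p.isOver) (hsign : q.sign = !p.sign) :
      Move (u ++ v) (ordered e₁ p q ++ u ++ ordered e₂ p.flip q.flip ++ v)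
  | r3 (u v w : List Passage) (a b c : Passage) (e₁ e₂ e₃ : Bool)
      (hab : a.isOver = b.isOver) (hbc : b.isOver = c.isOver)
      (h₂ : e₂ = e₁ ↔ b.sign = c.sign) (h₃ : e₃ = e₁ ↔ a.sign = c.sign) :
      Move
        (ordered e₁ a b ++ u ++ ordered e₂ a.flip c ++ v ++ ordered e₃ b.flip c.flip ++ w)
        (ordered (!e₁) a b ++ u ++ ordered (!e₂) a.flip c ++ v ++
          ordered (!e₃) b.flip c.flip ++ w)

/-- A virtual knot diagram, given by its signed Gauss word. -/
def Diagram : Type := {w : List Passage // IsGaussWord w}

/-- One diagram is obtained from another by a single move (or by its inverse, as `VirtualKnot` is
the quotient by the equivalence relation generated by `Step`). -/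
def Step (D E : Diagram) : Prop := Move D.1 E.1

/-- A virtual knot: a class of diagrams modulo the equivalence relation generated by the moves. -/
def VirtualKnot : Type := Quot Step

/-- The virtual knot represented by a diagram. -/
def Diagram.knot (D : Diagram) : VirtualKnot := Quot.mk Step D

/-- The diagram without classical crossings. -/
def trivialDiagram : Diagram := ⟨[], by simp [IsGaussWord]⟩

/-- The unknot. -/
def unknot : VirtualKnot := trivialDiagram.knot

/-- The set of (names of) classical crossings of a diagram. -/
def Diagram.crossings (D : Diagram) : Finset ℕ := (D.1.map Passage.label).toFinset

/-- Removal of all passages through the crossings in `S`. -/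
def erase (S : Finset ℕ) (w : List Passage) : List Passage := w.filter (fun p => p.label ∉ S)

theorem isGaussWord_erase {w : List Passage} (h : IsGaussWord w) (S : Finset ℕ) :
    IsGaussWord (erase S w) := by
  obtain ⟨h1, h2, h3⟩ := h
  refine ⟨h1.filter _, ?_, ?_⟩
  · intro p hp
    simp only [erase, List.mem_filter, decide_eq_true_eq] at hp ⊢
    exact ⟨h2 p hp.1, hp.2⟩
  · intro p hp q hq hpq
    simp only [erase, List.mem_filter, decide_eq_true_eq] at hp hq
    exact h3 p hp.1 q hq.1 hpq

/-- Simultaneous virtualization of the classical crossings in `S`. -/
def Diagram.virtualize (D : Diagram) (S : Finset ℕ) : Diagram :=
  ⟨erase S D.1, isGaussWord_erase D.2 S⟩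

/-- The virtual unknotting number: the least `n` such that some diagram of `K` has `n` classical
crossings whose simultaneous virtualization gives a diagram of the unknot. -/
noncomputable def vu (K : VirtualKnot) : ℕ :=
  sInf {n | ∃ D : Diagram, D.knot = K ∧ ∃ S ⊆ D.crossings, S.card = n ∧
    (D.virtualize S).knot = unknot}

/-- `Procedure D n`: starting from the diagram `D`, one can reach a diagram of the unknot by
diagrammatic moves and virtualizations of classical crossings, in any order, with `n` crossings
virtualized in total. -/
inductive Procedure : Diagram → ℕ → Prop
  | stop (D : Diagram) (h : D.knot = unknot) : Procedure D 0
  | moves (D E : Diagram) (h : D.knot = E.knot) (n : ℕ) (hE : Procedure E n) : Procedure D n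
  | virtualize (D : Diagram) (S : Finset ℕ) (hS : S ⊆ D.crossings) (n : ℕ)
      (h : Procedure (D.virtualize S) n) : Procedure D (S.card + n)

/-- The virtual unknotting sequence number. -/
noncomputable def vus (K : VirtualKnot) : ℕ :=
  sInf {n | ∃ D : Diagram, D.knot = K ∧ Procedure D n}

end Pool.Agent.H.MP_f8820e_gt
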