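import Pool.Agent.H.MP_f8820e_gt.Defs

/-!
# Proof of the equality of the two virtual unknotting numbers
-/

open List

namespace Pool.Agent.H.MP_f8820e_gt

/-! ### Elementary facts -/

section aux

@[simp] theorem flip_label (p : Passage) : p.flip.label = p.label := rfl
@[simp] theorem flip_sign (p : Passage) : p.flip.sign = p.sign := rfl
@[simp] theorem flip_isOver (p : Passage) : p.flip.isOver = !p.isOver := rfl
@[simp] theorem flip_flip (p : Passage) : p.flip.flip = p := by
  cases p; simp [Passage.flip]
theorem flip_ne (p : Passage) : p.flip ≠ p := by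
  intro h
  have := congrArg Passage.isOver h
  simp at this
@[simp] theorem rename_flip (f : ℕ → ℕ) (p : Passage) :
    (p.rename f).flip = p.flip.rename f := rfl
@[simp] theorem rename_label (f : ℕ → ℕ) (p : Passage) : (p.rename f).label = f p.label := rfl
@[simp] theorem rename_sign (f : ℕ → ℕ) (p : Passage) : (p.rename f).sign = p.sign := rfl
@[simp] theorem rename_isOver (f : ℕ → ℕ) (p : Passage) : (p.rename f).isOver = p.isOver := rfl

theorem ordered_perm (e : Bool) (p q : Passage) : (ordered e p q).Perm [p, q] := by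
  cases e
  · simpa [ordered] using List.Perm.swap p q []
  · simp [ordered]

theorem mem_ordered {e : Bool} {p q x : Passage} : x ∈ ordered e p q ↔ x = p ∨ x = q := by
  rw [(ordered_perm e p q).mem_iff]; simp

theorem map_ordered (e : Bool) (p q : Passage) (g : Passage → Passage) :
    (ordered e p q).map g = ordered e (g p) (g q) := by
  cases e <;> simp [ordered]

theorem IsGaussWord.perm {w w' : List Passage} (h : IsGaussWord w) (hp : w.Perm w') :
    IsGaussWord w' := by
  obtain ⟨h1, h2, h3⟩ := h
  refine ⟨hp.nodup_iff.mp h1, ?_, ?_⟩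
  · intro p hpw
    exact hp.mem_iff.mp (h2 p (hp.mem_iff.mpr hpw))
  · intro p hpw q hqw
    exact h3 p (hp.mem_iff.mpr hpw) q (hp.mem_iff.mpr hqw)

theorem gauss_append {w w' : List Passage} (h : IsGaussWord w) (h' : IsGaussWord w')
    (hd : ∀ p ∈ w, ∀ q ∈ w', p.label ≠ q.label) : IsGaussWord (w ++ w') := by
  obtain ⟨h1, h2, h3⟩ := h
  obtain ⟨h1', h2', h3'⟩ := h'
  refine ⟨?_, ?_, ?_⟩
  · rw [List.nodup_append]
    refine ⟨h1, h1', ?_⟩
    intro a ha b hb hab
    exact hd a ha b hb (by rw [hab])
  · intro p hp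
    rcases List.mem_append.mp hp with hp | hp
    · exact List.mem_append_left _ (h2 p hp)
    · exact List.mem_append_right _ (h2' p hp)
  · intro p hp q hq hpq
    rcases List.mem_append.mp hp with hp | hp <;> rcases List.mem_append.mp hq with hq | hq
    · exact h3 p hp q hq hpq
    · exact absurd hpq (hd p hp q hq)
    · exact absurd hpq.symm (hd q hq p hp)
    · exact h3' p hp q hq hpq

theorem gauss_right {B D : List Passage} (h : IsGaussWord (B ++ D))
    (hB : ∀ p ∈ B, p.flip ∈ B) : IsGaussWord D := by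
  obtain ⟨h1, h2, h3⟩ := h
  rw [List.nodup_append] at h1
  refine ⟨h1.2.1, ?_, ?_⟩
  · intro p hp
    rcases List.mem_append.mp (h2 p (List.mem_append_right _ hp)) with h | h
    · exact absurd rfl (h1.2.2 p (by simpa using hB _ h) p hp)
    · exact h
  · intro p hp q hq
    exact h3 p (List.mem_append_right _ hp) q (List.mem_append_right _ hq)

theorem gauss_disj {B D : List Passage} (h : IsGaussWord (B ++ D))
    (hB : ∀ p ∈ B, p.flip ∈ B) : ∀ p ∈ B, ∀ x ∈ D, x.label ≠ p.label := by
  intro p hp x hx hxp
  obtain ⟨h1, h2, h3⟩ := h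
  rw [List.nodup_append] at h1
  rcases h3 p (List.mem_append_left _ hp) x (List.mem_append_right _ hx) hxp.symm with h | h
  · exact h1.2.2 p hp x hx h.symm
  · exact h1.2.2 p.flip (hB p hp) x hx h.symm

theorem gauss_chord (p : Passage) : IsGaussWord [p, p.flip] := by
  refine ⟨?_, ?_, ?_⟩
  · simpa using (flip_ne p).symm
  · intro q hq
    simp only [List.mem_cons, List.not_mem_nil, or_false] at hq
    rcases hq with rfl | rfl <;> simp
  · intro q hq r hr _
    simp only [List.mem_cons, List.not_mem_nil, or_false] at hq hr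
    rcases hq with rfl | rfl <;> rcases hr with rfl | rfl <;> simp

theorem gauss_rename {w : List Passage} (h : IsGaussWord w) (σ : Equiv.Perm ℕ) :
    IsGaussWord (w.map (Passage.rename σ)) := by
  obtain ⟨h1, h2, h3⟩ := h
  have hinj : Function.Injective (Passage.rename σ) := by
    intro p q hpq
    cases p; cases q
    simp only [Passage.rename, Passage.mk.injEq, EmbeddingLike.apply_eq_iff_eq] at hpq ⊢
    exact hpq
  refine ⟨h1.map hinj, ?_, ?_⟩
  · intro p hp
    obtain ⟨q, hq, rfl⟩ := List.mem_map.mp hp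
    exact List.mem_map.mpr ⟨q.flip, h2 q hq, rfl⟩
  · intro p hp q hq hpq
    obtain ⟨p', hp', rfl⟩ := List.mem_map.mp hp
    obtain ⟨q', hq', rfl⟩ := List.mem_map.mp hq
    simp only [rename_label, EmbeddingLike.apply_eq_iff_eq] at hpq
    rcases h3 p' hp' q' hq' hpq with h | h
    · left; rw [h]
    · right; rw [h]; rfl

/-- Two words represent the same virtual knot. -/
def Eqv (w w' : List Passage) : Prop :=
  ∃ (h : IsGaussWord w) (h' : IsGaussWord w'),
    Diagram.knot ⟨w, h⟩ = Diagram.knot ⟨w', h'⟩

theorem Eqv.refl {w : List Passage} (h : IsGaussWord w) : Eqv w w := ⟨h, h, rfl⟩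
theorem Eqv.symm {w w' : List Passage} : Eqv w w' → Eqv w' w
  | ⟨h, h', e⟩ => ⟨h', h, e.symm⟩
theorem Eqv.trans {w w' w'' : List Passage} : Eqv w w' → Eqv w' w'' → Eqv w w''
  | ⟨h, _, e⟩, ⟨_, h'', e'⟩ => ⟨h, h'', e.trans e'⟩
theorem Eqv.of_move {w w' : List Passage} (h : IsGaussWord w) (h' : IsGaussWord w')
    (hm : Move w w') : Eqv w w' :=
  ⟨h, h', Quot.sound hm⟩

theorem Eqv.rotate {u v : List Passage} (h : IsGaussWord (u ++ v)) : Eqv (u ++ v) (v ++ u) :=
  Eqv.of_move h (h.perm List.perm_append_comm) (Move.rotate u v)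

theorem Eqv.rename {w : List Passage} (h : IsGaussWord w) (σ : Equiv.Perm ℕ) :
    Eqv w (w.map (Passage.rename σ)) :=
  Eqv.of_move h (gauss_rename h σ) (Move.rename σ w)

/-! ### Deletions by the first two Reidemeister moves -/

/-- A deletion by a first or second Reidemeister move. -/
inductive Del : List Passage → List Passage → Prop
  | r1 (u v : List Passage) (p : Passage) : Del (u ++ [p, p.flip] ++ v) (u ++ v)
  | r2 (u v w : List Passage) (p q : Passage) (e₁ e₂ : Bool)
      (hover : q.isOver = p.isOver) (hsign : q.sign = !p.sign) :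
      Del (u ++ ordered e₁ p q ++ v ++ ordered e₂ p.flip q.flip ++ w) (u ++ v ++ w)

/-- Iterated deletions. -/
def Red : List Passage → List Passage → Prop := Relation.ReflTransGen Del

/-- The deleted block. -/
theorem Del.block {W D : List Passage} (h : Del W D) :
    ∃ B : List Passage, W.Perm (B ++ D) ∧ ∀ p ∈ B, p.flip ∈ B := by
  cases h with
  | r1 u v p =>
    refine ⟨[p, p.flip], ?_, ?_⟩
    · rw [List.append_assoc, ← List.append_assoc]
      rw [List.perm_iff_count]; intro x
      simp only [List.count_append]; ring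
    · intro q hq
      simp only [List.mem_cons, List.not_mem_nil, or_false] at hq
      rcases hq with rfl | rfl <;> simp
  | r2 u v w p q e₁ e₂ hover hsign =>
    refine ⟨ordered e₁ p q ++ ordered e₂ p.flip q.flip, ?_, ?_⟩
    · rw [List.perm_iff_count]; intro x
      simp only [List.count_append]; ring
    · intro x hx
      rw [List.mem_append, mem_ordered, mem_ordered] at hx ⊢
      rcases hx with (rfl | rfl) | (rfl | rfl) <;> simp

theorem Del.gauss {W D : List Passage} (h : Del W D) (hW : IsGaussWord W) : IsGaussWord D := by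
  obtain ⟨B, hB, hf⟩ := h.block
  exact gauss_right (hW.perm hB) hf

theorem Del.subset {W D : List Passage} (h : Del W D) : D ⊆ W := by
  obtain ⟨B, hB, -⟩ := h.block
  intro x hx
  exact hB.mem_iff.mpr (List.mem_append_right _ hx)

theorem Red.gauss {W D : List Passage} (h : Red W D) (hW : IsGaussWord W) : IsGaussWord D := by
  induction h with
  | refl => exact hW
  | tail _ h ih => exact h.gauss ih

theorem Red.subset {W D : List Passage} (h : Red W D) : D ⊆ W := by
  induction h with
  | refl => exact fun _ h => h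
  | tail _ h ih => exact fun x hx => ih (h.subset hx)

theorem Del.eqv {W D : List Passage} (h : Del W D) (hW : IsGaussWord W) : Eqv D W := by
  have hD := h.gauss hW
  cases h with
  | r1 u v p =>
    have g1 : IsGaussWord (v ++ u) := hD.perm List.perm_append_comm
    have g2 : IsGaussWord ([p, p.flip] ++ (v ++ u)) := by
      refine hW.perm ?_
      rw [List.perm_iff_count]; intro x
      simp only [List.count_append]; ring
    have s1 : Eqv (u ++ v) (v ++ u) := Eqv.rotate hD
    have s2 : Eqv (v ++ u) ([p, p.flip] ++ (v ++ u)) := Eqv.of_move g1 g2 (Move.r1 _ p)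
    have s3 : Eqv (([p, p.flip] ++ v) ++ u) (u ++ ([p, p.flip] ++ v)) :=
      Eqv.rotate (by simpa using g2)
    have := (s1.trans s2).trans (by simpa using s3)
    simpa using this
  | r2 u v w p q e₁ e₂ hover hsign =>
    have g0 : IsGaussWord (u ++ (v ++ w)) := by simpa using hD
    have g1 : IsGaussWord (v ++ (w ++ u)) := by
      refine hD.perm ?_
      rw [List.perm_iff_count]; intro x
      simp only [List.count_append]; ring
    have g2 : IsGaussWord (ordered e₁ p q ++ v ++ ordered e₂ p.flip q.flip ++ (w ++ u)) := by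
      refine hW.perm ?_
      rw [List.perm_iff_count]; intro x
      simp only [List.count_append]; ring
    have s1 : Eqv (u ++ (v ++ w)) ((v ++ w) ++ u) := Eqv.rotate g0
    have s2 := Eqv.of_move g1 g2 (Move.r2 v (w ++ u) p q e₁ e₂ hover hsign)
    have s3 : Eqv ((ordered e₁ p q ++ v ++ ordered e₂ p.flip q.flip ++ w) ++ u)
        (u ++ (ordered e₁ p q ++ v ++ ordered e₂ p.flip q.flip ++ w)) :=
      Eqv.rotate (by simpa using g2)
    simp only [List.append_assoc] at s1 s2 s3 ⊢
    exact (s1.trans s2).trans s3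

theorem Red.eqv {W D : List Passage} (h : Red W D) (hW : IsGaussWord W) : Eqv D W := by
  induction h with
  | refl => exact Eqv.refl hW
  | tail h1 h ih => exact (h.eqv (Red.gauss h1 hW)).trans ih

theorem Del.split {W D : List Passage} (h : Del W D) :
    ∀ d₁ d₂, D = d₁ ++ d₂ → ∃ w₁ w₂, W = w₁ ++ w₂ ∧
      (∀ X, Del (w₁ ++ X ++ w₂) (d₁ ++ X ++ d₂)) ∧ Del (w₂ ++ w₁) (d₂ ++ d₁) := by
  intro d₁ d₂ hD
  cases h with
  | r1 u v p =>
    rcases List.append_eq_append_iff.mp hD with ⟨c, h1, h2⟩ | ⟨c, h1, h2⟩
    · subst h1 h2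
      refine ⟨u ++ [p, p.flip] ++ c, d₂, by simp, fun X => ?_, ?_⟩
      · simpa using Del.r1 u (c ++ X ++ d₂) p
      · simpa using Del.r1 (d₂ ++ u) c p
    · subst h1 h2
      refine ⟨d₁, c ++ [p, p.flip] ++ v, by simp, fun X => ?_, ?_⟩
      · simpa using Del.r1 (d₁ ++ X ++ c) v p
      · simpa using Del.r1 c (v ++ d₁) p
  | r2 u v w p q e₁ e₂ hover hsign =>
    rw [List.append_assoc] at hD
    rcases List.append_eq_append_iff.mp hD with ⟨c, h1, h2⟩ | ⟨c, h1, h2⟩
    · rcases List.append_eq_append_iff.mp h2 with ⟨c', h1', h2'⟩ | ⟨c', h1', h2'⟩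
      · subst h1 h1' h2'
        refine ⟨u ++ ordered e₁ p q ++ v ++ ordered e₂ p.flip q.flip ++ c', d₂, by simp,
          fun X => ?_, ?_⟩
        · simpa using Del.r2 u v (c' ++ X ++ d₂) p q e₁ e₂ hover hsign
        · simpa using Del.r2 (d₂ ++ u) v c' p q e₁ e₂ hover hsign
      · subst h1 h1' h2'
        refine ⟨u ++ ordered e₁ p q ++ c, c' ++ ordered e₂ p.flip q.flip ++ w, by simp,
          fun X => ?_, ?_⟩
        · simpa using Del.r2 u (c ++ X ++ c') w p q e₁ e₂ hover hsign
        · simpa using Del.r2 c' (w ++ u) c p.flip q.flip e₂ e₁ (by simpa using hover)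
            (by simpa using hsign)
    · subst h1 h2
      refine ⟨d₁, c ++ ordered e₁ p q ++ v ++ ordered e₂ p.flip q.flip ++ w, by simp,
        fun X => ?_, ?_⟩
      · simpa using Del.r2 (d₁ ++ X ++ c) v w p q e₁ e₂ hover hsign
      · simpa using Del.r2 c v (w ++ d₁) p q e₁ e₂ hover hsign

theorem Red.split {W D : List Passage} (h : Red W D) :
    ∀ d₁ d₂, D = d₁ ++ d₂ → ∃ w₁ w₂, W = w₁ ++ w₂ ∧
      (∀ X, Red (w₁ ++ X ++ w₂) (d₁ ++ X ++ d₂)) ∧ Red (w₂ ++ w₁) (d₂ ++ d₁) := by
  induction h with
  | refl =>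
    intro d₁ d₂ hD
    exact ⟨d₁, d₂, hD, fun X => Relation.ReflTransGen.refl, Relation.ReflTransGen.refl⟩
  | tail _ h ih =>
    intro d₁ d₂ hD
    obtain ⟨e₁, e₂, he, hX, hr⟩ := h.split d₁ d₂ hD
    obtain ⟨w₁, w₂, hw, hX', hr'⟩ := ih e₁ e₂ he
    exact ⟨w₁, w₂, hw, fun X => (hX' X).tail (hX X), hr'.tail hr⟩

theorem Del.prepend {W D : List Passage} (X : List Passage) (h : Del W D) :
    Del (X ++ W) (X ++ D) := by
  cases h with
  | r1 u v p => simpa using Del.r1 (X ++ u) v p
  | r2 u v w p q e₁ e₂ hover hsign =>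
    simpa using Del.r2 (X ++ u) v w p q e₁ e₂ hover hsign

theorem Red.prepend {W D : List Passage} (X : List Passage) (h : Red W D) :
    Red (X ++ W) (X ++ D) := by
  induction h with
  | refl => exact Relation.ReflTransGen.refl
  | tail _ h ih => exact ih.tail (h.prepend X)

theorem Del.rename {W D : List Passage} (f : ℕ → ℕ) (h : Del W D) :
    Del (W.map (Passage.rename f)) (D.map (Passage.rename f)) := by
  cases h with
  | r1 u v p =>
    simpa using Del.r1 (u.map (Passage.rename f)) (v.map (Passage.rename f)) (p.rename f)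
  | r2 u v w p q e₁ e₂ hover hsign =>
    have := Del.r2 (u.map (Passage.rename f)) (v.map (Passage.rename f))
      (w.map (Passage.rename f)) (p.rename f) (q.rename f) e₁ e₂ (by simpa using hover)
      (by simpa using hsign)
    simpa [map_ordered] using this

theorem Red.rename {W D : List Passage} (f : ℕ → ℕ) (h : Red W D) :
    Red (W.map (Passage.rename f)) (D.map (Passage.rename f)) := by
  induction h with
  | refl => exact Relation.ReflTransGen.refl
  | tail _ h ih => exact ih.tail (h.rename f)

theorem erase_append (T : Finset ℕ) (u v : List Passage) :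
    erase T (u ++ v) = erase T u ++ erase T v := by
  simp [erase]

theorem erase_of_disj {T : Finset ℕ} {u : List Passage} (h : ∀ x ∈ u, x.label ∉ T) :
    erase T u = u := by
  simpa [erase, List.filter_eq_self] using h

theorem Del.erase {W D : List Passage} (h : Del W D) (hW : IsGaussWord W) {T : Finset ℕ}
    (hT : ∀ t ∈ T, ∃ x ∈ D, x.label = t) : Del (erase T W) (erase T D) := by
  cases h with
  | r1 u v p =>
    have hp : p.label ∉ T := by
      intro hp
      obtain ⟨x, hx, hxp⟩ := hT _ hp
      have hG : IsGaussWord ([p, p.flip] ++ (u ++ v)) := by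
        refine hW.perm ?_
        rw [List.perm_iff_count]; intro x
        simp only [List.count_append]; ring
      refine gauss_disj hG ?_ p (by simp) x hx hxp
      intro q hq
      simp only [List.mem_cons, List.not_mem_nil, or_false] at hq
      rcases hq with rfl | rfl <;> simp
    have e1 : MP_f8820e_gt.erase T [p, p.flip] = [p, p.flip] := erase_of_disj (by simp [hp])
    rw [erase_append, erase_append, erase_append, e1]
    exact Del.r1 _ _ p
  | r2 u v w p q e₁ e₂ hover hsign =>
    have hG : IsGaussWord ((ordered e₁ p q ++ ordered e₂ p.flip q.flip) ++ (u ++ v ++ w)) := by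
      refine hW.perm ?_
      rw [List.perm_iff_count]; intro x
      simp only [List.count_append]; ring
    have hfl : ∀ x ∈ ordered e₁ p q ++ ordered e₂ p.flip q.flip,
        x.flip ∈ ordered e₁ p q ++ ordered e₂ p.flip q.flip := by
      intro x hx
      rw [List.mem_append, mem_ordered, mem_ordered] at hx ⊢
      rcases hx with (rfl | rfl) | (rfl | rfl) <;> simp
    have hp : p.label ∉ T := by
      intro hp
      obtain ⟨x, hx, hxp⟩ := hT _ hp
      exact gauss_disj hG hfl p (by simp [mem_ordered]) x hx hxp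
    have hq : q.label ∉ T := by
      intro hq
      obtain ⟨x, hx, hxq⟩ := hT _ hq
      exact gauss_disj hG hfl q (by simp [mem_ordered]) x hx hxq
    have e1 : MP_f8820e_gt.erase T (ordered e₁ p q) = ordered e₁ p q := by
      refine erase_of_disj ?_
      intro x hx
      rw [mem_ordered] at hx
      rcases hx with rfl | rfl <;> assumption
    have e2 : MP_f8820e_gt.erase T (ordered e₂ p.flip q.flip) = ordered e₂ p.flip q.flip := by
      refine erase_of_disj ?_
      intro x hx
      rw [mem_ordered] at hx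
      rcases hx with rfl | rfl <;> assumption
    simp only [erase_append, e1, e2]
    exact Del.r2 _ _ _ p q e₁ e₂ hover hsign

theorem Red.erase {W D : List Passage} (h : Red W D) (hW : IsGaussWord W) {T : Finset ℕ}
    (hT : ∀ t ∈ T, ∃ x ∈ D, x.label = t) : Red (erase T W) (erase T D) := by
  induction h with
  | refl => exact Relation.ReflTransGen.refl
  | tail h1 h ih =>
    refine (ih ?_).tail (h.erase (Red.gauss h1 hW) hT)
    intro t ht
    obtain ⟨x, hx, hxt⟩ := hT t ht
    exact ⟨x, h.subset hx, hxt⟩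

theorem Del.flatMap {W D : List Passage} (h : Del W D) (hW : IsGaussWord W)
    (f : Passage → List Passage) (hf : ∀ l ∈ W, l ∉ D → f l = [l]) :
    Del (W.flatMap f) (D.flatMap f) := by
  cases h with
  | r1 u v p =>
    have hG : IsGaussWord ([p, p.flip] ++ (u ++ v)) := by
      refine hW.perm ?_
      rw [List.perm_iff_count]; intro x
      simp only [List.count_append]; ring
    have hn := (List.nodup_append.mp hG.1).2.2
    have e1 : f p = [p] := hf p (by simp) (fun hp => hn p (by simp) p hp rfl)
    have e2 : f p.flip = [p.flip] :=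
      hf p.flip (by simp) (fun hp => hn p.flip (by simp) p.flip hp rfl)
    have := Del.r1 (u.flatMap f) (v.flatMap f) p
    simpa [List.flatMap_append, e1, e2] using this
  | r2 u v w p q e₁ e₂ hover hsign =>
    have hG : IsGaussWord ((ordered e₁ p q ++ ordered e₂ p.flip q.flip) ++ (u ++ v ++ w)) := by
      refine hW.perm ?_
      rw [List.perm_iff_count]; intro x
      simp only [List.count_append]; ring
    have hn := (List.nodup_append.mp hG.1).2.2
    have key : ∀ x ∈ ordered e₁ p q ++ ordered e₂ p.flip q.flip, f x = [x] := by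
      intro x hx
      refine hf x ?_ (fun hp => hn x hx x hp rfl)
      rw [List.mem_append] at hx
      simp only [List.mem_append]
      tauto
    have key2 : ∀ (L : List Passage), (∀ x ∈ L, f x = [x]) → L.flatMap f = L := by
      intro L hL
      induction L with
      | nil => rfl
      | cons a L ih =>
        rw [List.flatMap_cons, hL a (by simp), ih (fun x hx => hL x (by simp [hx]))]
        rfl
    have e1 : (ordered e₁ p q).flatMap f = ordered e₁ p q :=
      key2 _ (fun x hx => key x (List.mem_append_left _ hx))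
    have e2 : (ordered e₂ p.flip q.flip).flatMap f = ordered e₂ p.flip q.flip :=
      key2 _ (fun x hx => key x (List.mem_append_right _ hx))
    simp only [List.flatMap_append, e1, e2]
    exact Del.r2 _ _ _ p q e₁ e₂ hover hsign

theorem Red.flatMap {W D : List Passage} (h : Red W D) (hW : IsGaussWord W)
    (f : Passage → List Passage) (hf : ∀ l ∈ W, l ∉ D → f l = [l]) :
    Red (W.flatMap f) (D.flatMap f) := by
  induction h with
  | refl => exact Relation.ReflTransGen.refl
  | tail h1 h ih =>
    refine (ih ?_).tail (h.flatMap (Red.gauss h1 hW) f ?_)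
    · intro l hl hl'
      exact hf l hl (fun hc => hl' (h.subset hc))
    · intro l hl hl'
      exact hf l (Red.subset h1 hl) hl'

end aux

/-! ### Transport of virtualized crossings along moves -/

section transport

/-- The labels of a word. -/
def labels (w : List Passage) : Finset ℕ := (w.map Passage.label).toFinset

theorem mem_labels {w : List Passage} {t : ℕ} : t ∈ labels w ↔ ∃ x ∈ w, x.label = t := by
  simp [labels]

/-- `Above n E D`: the word `E` has `n` crossings whose virtualization gives a word from which `D`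
is obtained by deletions by first and second Reidemeister moves. -/
def Above (n : ℕ) (E D : List Passage) : Prop :=
  IsGaussWord E ∧ ∃ S : Finset ℕ, S ⊆ labels E ∧ S.card = n ∧ Red (erase S E) D

theorem Above.gauss {n : ℕ} {E D : List Passage} (h : Above n E D) : IsGaussWord D := by
  obtain ⟨hE, S, -, -, hR⟩ := h
  exact hR.gauss (isGaussWord_erase hE S)

theorem Above.red {n : ℕ} {E D D' : List Passage} (h : Above n E D) (hR : Red D D') :
    Above n E D' := by
  obtain ⟨hE, S, h1, h2, h3⟩ := h
  exact ⟨hE, S, h1, h2, Relation.ReflTransGen.trans h3 hR⟩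

theorem erase_rename (σ : Equiv.Perm ℕ) (S : Finset ℕ) (w : List Passage) :
    erase (S.map σ.toEmbedding) (w.map (Passage.rename σ)) =
      (erase S w).map (Passage.rename σ) := by
  unfold erase
  rw [List.filter_map]
  congr 1
  refine List.filter_congr ?_
  intro x _
  simp

theorem Above.rename {n : ℕ} {E D : List Passage} (h : Above n E D) (σ : Equiv.Perm ℕ) :
    Above n (E.map (Passage.rename σ)) (D.map (Passage.rename σ)) := by
  obtain ⟨hE, S, h1, h2, h3⟩ := h
  refine ⟨gauss_rename hE σ, S.map σ.toEmbedding, ?_, by simpa using h2, ?_⟩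
  · intro t ht
    obtain ⟨s, hs, rfl⟩ := Finset.mem_map.mp ht
    obtain ⟨x, hx, hxs⟩ := mem_labels.mp (h1 hs)
    refine mem_labels.mpr ⟨x.rename σ, List.mem_map.mpr ⟨x, hx, rfl⟩, ?_⟩
    simp [hxs]
  · rw [erase_rename]
    exact h3.rename σ

theorem rename_eq_self {f : ℕ → ℕ} {w : List Passage} (h : ∀ x ∈ w, f x.label = x.label) :
    w.map (Passage.rename f) = w := by
  have : ∀ x ∈ w, Passage.rename f x = x := by
    intro x hx
    cases x
    simpa [Passage.rename] using h _ hx
  calc w.map (Passage.rename f) = w.map id := List.map_congr_left this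
    _ = w := by simp

/-- The involution exchanging `x` and `x + N` for `x ∈ F`. -/
def shiftFun (F : Finset ℕ) (N : ℕ) (x : ℕ) : ℕ :=
  if x ∈ F then x + N else if N ≤ x ∧ x - N ∈ F then x - N else x

theorem shiftFun_invol (F : Finset ℕ) (N : ℕ) (hF : ∀ x ∈ F, x < N) :
    Function.Involutive (shiftFun F N) := by
  intro x
  unfold shiftFun
  by_cases h1 : x ∈ F
  · have h2 : x + N ∉ F := fun h => by have := hF _ h; omega
    simp [h1, h2]
  · by_cases h2 : N ≤ x ∧ x - N ∈ F
    · rw [if_neg h1, if_pos h2, if_pos h2.2]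
      omega
    · simp [h1, h2]

/-- The involution as a permutation. -/
def shiftPerm (F : Finset ℕ) (N : ℕ) (hF : ∀ x ∈ F, x < N) : Equiv.Perm ℕ :=
  (shiftFun_invol F N hF).toPerm

theorem shiftPerm_apply (F : Finset ℕ) (N : ℕ) (hF : ∀ x ∈ F, x < N) (x : ℕ) :
    shiftPerm F N hF x = if x ∈ F then x + N else if N ≤ x ∧ x - N ∈ F then x - N else x := rfl

theorem exists_bound (F : Finset ℕ) : ∃ N, ∀ x ∈ F, x < N :=
  ⟨F.sup id + 1, fun _ hx => Nat.lt_succ_of_le (Finset.le_sup (f := id) hx)⟩

/-- Renaming the crossings of `E` that are absent from `D`. -/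
theorem Above.freshen {n : ℕ} {E D : List Passage} (h : Above n E D) (F : Finset ℕ)
    (hF : ∀ x ∈ D, x.label ∉ F) :
    ∃ E', Eqv E E' ∧ Above n E' D ∧ ∀ x ∈ E', x.label ∉ F := by
  obtain ⟨N, hN⟩ := exists_bound (F ∪ labels E)
  have hFN : ∀ x ∈ F, x < N := fun x hx => hN x (Finset.mem_union_left _ hx)
  have hEN : ∀ x ∈ E, x.label < N := fun x hx =>
    hN _ (Finset.mem_union_right _ (mem_labels.mpr ⟨x, hx, rfl⟩))
  have hDE : D ⊆ E := by
    obtain ⟨-, S, -, -, h3⟩ := h
    intro x hx
    exact (List.mem_filter.mp (h3.subset hx)).1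
  set σ := shiftPerm F N hFN with hσ
  have hD : D.map (Passage.rename σ) = D := by
    refine rename_eq_self ?_
    intro x hx
    have h1 := hF x hx
    have h2 := hEN x (hDE hx)
    rw [hσ, shiftPerm_apply, if_neg h1, if_neg (by omega)]
  refine ⟨E.map (Passage.rename σ), Eqv.rename h.1 σ, ?_, ?_⟩
  · have := h.rename σ
    rwa [hD] at this
  · intro x hx hxF
    obtain ⟨y, hy, rfl⟩ := List.mem_map.mp hx
    rw [rename_label, hσ, shiftPerm_apply] at hxF
    have h2 := hEN y hy
    by_cases h1 : y.label ∈ F
    · rw [if_pos h1] at hxF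
      have := hFN _ hxF
      omega
    · rw [if_neg h1, if_neg (by omega)] at hxF
      exact h1 hxF

theorem labels_append (u v : List Passage) : labels (u ++ v) = labels u ∪ labels v := by
  ext t; simp [mem_labels, or_and_right, exists_or]

/-- Splitting a word above a concatenation. -/
theorem erase_eq_append {S : Finset ℕ} {E w₁ w₂ : List Passage} (h : erase S E = w₁ ++ w₂) :
    ∃ E₁ E₂, E = E₁ ++ E₂ ∧ erase S E₁ = w₁ ∧ erase S E₂ = w₂ := by
  obtain ⟨E₁, E₂, h1, h2, h3⟩ := List.filter_eq_append_iff.mp h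
  exact ⟨E₁, E₂, h1, h2, h3⟩

theorem above_rotate {n : ℕ} {E u v : List Passage} (h : Above n E (u ++ v)) :
    ∃ E', Eqv E E' ∧ Above n E' (v ++ u) := by
  obtain ⟨hE, S, h1, h2, h3⟩ := h
  obtain ⟨w₁, w₂, hw, -, hr⟩ := h3.split u v rfl
  obtain ⟨E₁, E₂, rfl, rfl, rfl⟩ := erase_eq_append hw
  refine ⟨E₂ ++ E₁, Eqv.rotate hE, hE.perm List.perm_append_comm, S, ?_, h2, ?_⟩
  · rwa [labels_append, Finset.union_comm, ← labels_append]
  · rwa [erase_append]

theorem above_r1 {n : ℕ} {E u : List Passage} {p : Passage} (h : Above n E u)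
    (hG : IsGaussWord ([p, p.flip] ++ u)) :
    ∃ E', Eqv E E' ∧ Above n E' ([p, p.flip] ++ u) := by
  have hfl : ∀ q ∈ [p, p.flip], q.flip ∈ [p, p.flip] := by
    intro q hq
    simp only [List.mem_cons, List.not_mem_nil, or_false] at hq
    rcases hq with rfl | rfl <;> simp
  have hfresh : ∀ x ∈ u, x.label ∉ ({p.label} : Finset ℕ) := by
    intro x hx
    simpa using gauss_disj hG hfl p (by simp) x hx
  obtain ⟨E', hEE', ⟨hE', S, h1, h2, h3⟩, hE'F⟩ := h.freshen {p.label} hfresh
  have hG' : IsGaussWord ([p, p.flip] ++ E') := by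
    refine gauss_append (gauss_chord p) hE' ?_
    intro q hq x hx
    have hx' := hE'F x hx
    simp only [List.mem_cons, List.not_mem_nil, or_false] at hq
    simp only [Finset.mem_singleton] at hx'
    rcases hq with rfl | rfl
    · exact fun h => hx' h.symm
    · exact fun h => hx' h.symm
  have hpS : p.label ∉ S := by
    intro hp
    obtain ⟨x, hx, hxp⟩ := mem_labels.mp (h1 hp)
    exact hE'F x hx (by simp [hxp])
  refine ⟨[p, p.flip] ++ E', hEE'.trans (Eqv.of_move hE' hG' (Move.r1 _ p)), hG', S, ?_, h2, ?_⟩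
  · intro t ht
    rw [labels_append]
    exact Finset.mem_union_right _ (h1 ht)
  · rw [erase_append, erase_of_disj (u := [p, p.flip]) (by simp [hpS])]
    exact h3.prepend _

theorem above_r2 {n : ℕ} {E u v : List Passage} {p q : Passage} {e₁ e₂ : Bool}
    (hover : q.isOver = p.isOver) (hsign : q.sign = !p.sign) (h : Above n E (u ++ v))
    (hG : IsGaussWord (ordered e₁ p q ++ u ++ ordered e₂ p.flip q.flip ++ v)) :
    ∃ E', Eqv E E' ∧ Above n E' (ordered e₁ p q ++ u ++ ordered e₂ p.flip q.flip ++ v) := by
  have hG0 : IsGaussWord ((ordered e₁ p q ++ ordered e₂ p.flip q.flip) ++ (u ++ v)) := by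
    refine hG.perm ?_
    rw [List.perm_iff_count]; intro x
    simp only [List.count_append]; ring
  have hfl : ∀ x ∈ ordered e₁ p q ++ ordered e₂ p.flip q.flip,
      x.flip ∈ ordered e₁ p q ++ ordered e₂ p.flip q.flip := by
    intro x hx
    rw [List.mem_append, mem_ordered, mem_ordered] at hx ⊢
    rcases hx with (rfl | rfl) | (rfl | rfl) <;> simp
  have hfresh : ∀ x ∈ u ++ v, x.label ∉ ({p.label, q.label} : Finset ℕ) := by
    intro x hx
    have hp := gauss_disj hG0 hfl p (by simp [mem_ordered]) x hx
    have hq := gauss_disj hG0 hfl q (by simp [mem_ordered]) x hx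
    simp [hp, hq]
  obtain ⟨E', hEE', ⟨hE', S, h1, h2, h3⟩, hE'F⟩ := h.freshen {p.label, q.label} hfresh
  have hpS : p.label ∉ S := by
    intro hp
    obtain ⟨x, hx, hxp⟩ := mem_labels.mp (h1 hp)
    exact hE'F x hx (by simp [hxp])
  have hqS : q.label ∉ S := by
    intro hp
    obtain ⟨x, hx, hxp⟩ := mem_labels.mp (h1 hp)
    exact hE'F x hx (by simp [hxp])
  obtain ⟨w₁, w₂, hw, hX, -⟩ := h3.split u v rfl
  obtain ⟨E₁, E₂, rfl, rfl, rfl⟩ := erase_eq_append hw
  have hB : IsGaussWord (ordered e₁ p q ++ ordered e₂ p.flip q.flip) := by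
    refine gauss_right (B := u ++ v) (hG0.perm List.perm_append_comm) ?_
    intro x hx
    rcases List.mem_append.mp
      ((hG0.perm List.perm_append_comm).2.1 x (List.mem_append_left _ hx)) with h | h
    · exact h
    · exact absurd rfl (gauss_disj hG0 hfl x.flip h x hx)
  have hG' : IsGaussWord (ordered e₁ p q ++ E₁ ++ ordered e₂ p.flip q.flip ++ E₂) := by
    have : IsGaussWord ((ordered e₁ p q ++ ordered e₂ p.flip q.flip) ++ (E₁ ++ E₂)) := by
      refine gauss_append hB hE' ?_
      intro y hy x hx hyx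
      have hx' := hE'F x hx
      simp only [Finset.mem_insert, Finset.mem_singleton, not_or] at hx'
      rw [List.mem_append, mem_ordered, mem_ordered] at hy
      rcases hy with (rfl | rfl) | (rfl | rfl)
      · exact hx'.1 hyx.symm
      · exact hx'.2 hyx.symm
      · exact hx'.1 hyx.symm
      · exact hx'.2 hyx.symm
    refine this.perm ?_
    rw [List.perm_iff_count]; intro x
    simp only [List.count_append]; ring
  refine ⟨ordered e₁ p q ++ E₁ ++ ordered e₂ p.flip q.flip ++ E₂,
    hEE'.trans (Eqv.of_move hE' hG' (Move.r2 _ _ p q e₁ e₂ hover hsign)), hG', S, ?_, h2, ?_⟩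
  · refine h1.trans ?_
    simp only [labels_append]
    intro t ht
    simp only [Finset.mem_union] at ht ⊢
    tauto
  · have hd1 : erase S (ordered e₁ p q) = ordered e₁ p q := by
      refine erase_of_disj ?_
      intro x hx
      rw [mem_ordered] at hx
      rcases hx with rfl | rfl <;> assumption
    have hd2 : erase S (ordered e₂ p.flip q.flip) = ordered e₂ p.flip q.flip := by
      refine erase_of_disj ?_
      intro x hx
      rw [mem_ordered] at hx
      rcases hx with rfl | rfl <;> assumption
    have := (hX (ordered e₂ p.flip q.flip)).prepend (ordered e₁ p q)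
    simp only [erase_append, hd1, hd2]
    simpa only [List.append_assoc] using this

end transport

/-! ### The third Reidemeister move -/

section third

/-- A parallel copy of a chord, with the same sign. -/
def pos (N : ℕ) (p : Passage) : Passage := ⟨p.label + N, p.sign, p.isOver⟩

/-- A parallel copy of a chord, with the opposite sign. -/
def neg (N : ℕ) (p : Passage) : Passage := ⟨p.label + N + N, !p.sign, p.isOver⟩

@[simp] theorem pos_flip (N : ℕ) (p : Passage) : pos N p.flip = (pos N p).flip := rfl
@[simp] theorem neg_flip (N : ℕ) (p : Passage) : neg N p.flip = (neg N p).flip := rfl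

/-- A two-letter side block. -/
def side (P Q : Passage → Passage) (e : Bool) (a : Passage) : List Passage :=
  ordered e (P a) (Q a)

/-- The content of a gap: side blocks of `a` and `b` around `K`. -/
def content (P Q : Passage → Passage) (e : Bool) (K : List Passage) (a b : Passage) :
    List Passage :=
  if e then side P Q true a ++ K ++ side P Q false b else side P Q true b ++ K ++ side P Q false a

/-- The content of a gap with only one side block. -/
def half (P Q : Passage → Passage) (e : Bool) (K : List Passage) (a : Passage) : List Passage :=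
  if e then side P Q true a ++ K else K ++ side P Q false a

theorem content_snd (P Q : Passage → Passage) (e : Bool) (K : List Passage) (a b : Passage) :
    ∃ y₁ y₂ ε, content P Q e K a b = y₁ ++ ordered ε (P b) (Q b) ++ y₂ ∧
      half P Q e K a = y₁ ++ y₂ := by
  cases e
  · exact ⟨[], K ++ side P Q false a, true, by simp [content, side], by simp [half]⟩
  · exact ⟨side P Q true a ++ K, [], false, by simp [content, side], by simp [half]⟩

theorem half_one (P Q : Passage → Passage) (e : Bool) (K : List Passage) (a : Passage) :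
    ∃ y₁ y₂ ε, half P Q e K a = y₁ ++ ordered ε (P a) (Q a) ++ y₂ ∧ K = y₁ ++ y₂ := by
  cases e
  · exact ⟨K, [], false, by simp [half, side], by simp⟩
  · exact ⟨[], K, true, by simp [half, side], by simp⟩

theorem red_content (P Q : Passage → Passage) (hPf : ∀ p, P p.flip = (P p).flip)
    (hQf : ∀ p, Q p.flip = (Q p).flip) (hover : ∀ p, (Q p).isOver = (P p).isOver)
    (hsign : ∀ p, (Q p).sign = !(P p).sign) (e₁ e₂ e₃ : Bool) (K₁ K₂ K₃ A B C F : List Passage)
    (a b c : Passage) :
    Red (A ++ content P Q e₁ K₁ a b ++ B ++ content P Q e₂ K₂ a.flip c ++ C ++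
      content P Q e₃ K₃ b.flip c.flip ++ F) (A ++ K₁ ++ B ++ K₂ ++ C ++ K₃ ++ F) := by
  obtain ⟨y₁, y₂, ε, hy, hy'⟩ := content_snd P Q e₂ K₂ a.flip c
  obtain ⟨z₁, z₂, ε', hz, hz'⟩ := content_snd P Q e₃ K₃ b.flip c.flip
  obtain ⟨x₁, x₂, δ, hx, hx'⟩ := content_snd P Q e₁ K₁ a b
  obtain ⟨z₃, z₄, δ', hzz, hzz'⟩ := half_one P Q e₃ K₃ b.flip
  obtain ⟨x₃, x₄, γ, hxx, hxx'⟩ := half_one P Q e₁ K₁ a
  obtain ⟨y₃, y₄, γ', hyy, hyy'⟩ := half_one P Q e₂ K₂ a.flip
  have s1 : Del (A ++ content P Q e₁ K₁ a b ++ B ++ content P Q e₂ K₂ a.flip c ++ C ++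
      content P Q e₃ K₃ b.flip c.flip ++ F)
      (A ++ content P Q e₁ K₁ a b ++ B ++ half P Q e₂ K₂ a.flip ++ C ++
      half P Q e₃ K₃ b.flip ++ F) := by
    have := Del.r2 (A ++ content P Q e₁ K₁ a b ++ B ++ y₁) (y₂ ++ C ++ z₁) (z₂ ++ F)
      (P c) (Q c) ε ε' (hover c) (hsign c)
    rw [hy, hz, hy', hz']
    simpa only [List.append_assoc, hPf, hQf] using this
  have s2 : Del (A ++ content P Q e₁ K₁ a b ++ B ++ half P Q e₂ K₂ a.flip ++ C ++
      half P Q e₃ K₃ b.flip ++ F)
      (A ++ half P Q e₁ K₁ a ++ B ++ half P Q e₂ K₂ a.flip ++ C ++ K₃ ++ F) := by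
    have := Del.r2 (A ++ x₁) (x₂ ++ B ++ half P Q e₂ K₂ a.flip ++ C ++ z₃) (z₄ ++ F)
      (P b) (Q b) δ δ' (hover b) (hsign b)
    rw [hx, hzz, hx', hzz']
    simpa only [List.append_assoc, hPf, hQf] using this
  have s3 : Del (A ++ half P Q e₁ K₁ a ++ B ++ half P Q e₂ K₂ a.flip ++ C ++ K₃ ++ F)
      (A ++ K₁ ++ B ++ K₂ ++ C ++ K₃ ++ F) := by
    have := Del.r2 (A ++ x₃) (x₄ ++ B ++ y₃) (y₄ ++ C ++ K₃ ++ F)
      (P a) (Q a) γ γ' (hover a) (hsign a)
    rw [hxx, hyy, hxx', hyy']
    simpa only [List.append_assoc, hPf, hQf] using this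
  exact ((Relation.ReflTransGen.single s1).tail s2).tail s3

/-- The first letter of `ordered e a b`. -/
def fst (e : Bool) (a b : Passage) : Passage := if e then a else b
/-- The second letter of `ordered e a b`. -/
def snd (e : Bool) (a b : Passage) : Passage := if e then b else a

theorem ordered_eq (e : Bool) (a b : Passage) : ordered e a b = [fst e a b, snd e a b] := by
  cases e <;> simp [ordered, fst, snd]

/-- The block inserted between the letters of `ordered e a b`. -/
def gap (N : ℕ) (e e' : Bool) (a b : Passage) : List Passage :=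
  [neg N (fst e a b)] ++ ordered e' (pos N a) (pos N b) ++ [neg N (snd e a b)]

theorem gap_eq_content (N : ℕ) (e : Bool) (a b : Passage) :
    gap N e e a b = content (neg N) (pos N) e [] a b := by
  cases e <;> simp [gap, content, side, ordered, fst, snd]

theorem gap_eq_content' (N : ℕ) (e e' : Bool) (a b : Passage) :
    [fst e a b] ++ gap N e e' a b ++ [snd e a b] =
      content id (neg N) e (ordered e' (pos N a) (pos N b)) a b := by
  cases e <;> simp [gap, content, side, ordered, fst, snd]

theorem gap_count (N : ℕ) (e e' : Bool) (a b x : Passage) :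
    (gap N e e' a b).count x =
      ([pos N a] : List Passage).count x + ([neg N a] : List Passage).count x +
      (([pos N b] : List Passage).count x + ([neg N b] : List Passage).count x) := by
  have h := (ordered_perm e' (pos N a) (pos N b)).count_eq x
  have h2 : [pos N a, pos N b] = [pos N a] ++ [pos N b] := rfl
  rw [h2, List.count_append] at h
  simp only [gap, List.count_append, h]
  cases e
  · simp only [fst, snd, Bool.false_eq_true, if_false]; ring
  · simp only [fst, snd, if_true]; ring

theorem gauss_three {N : ℕ} {a b c : Passage} (ha : a.label < N) (hb : b.label < N)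
    (hc : c.label < N) (hab : a.label ≠ b.label) (hac : a.label ≠ c.label)
    (hbc : b.label ≠ c.label) :
    IsGaussWord ([pos N a, (pos N a).flip] ++ [neg N a, (neg N a).flip] ++
      [pos N b, (pos N b).flip] ++ [neg N b, (neg N b).flip] ++
      [pos N c, (pos N c).flip] ++ [neg N c, (neg N c).flip]) := by
  have key : ∀ {L : List Passage} {p : Passage}, IsGaussWord L → (∀ x ∈ L, x.label ≠ p.label) →
      IsGaussWord (L ++ [p, p.flip]) := by
    intro L p hL hp
    refine gauss_append hL (gauss_chord p) ?_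
    intro x hx y hy
    simp only [List.mem_cons, List.not_mem_nil, or_false] at hy
    rcases hy with rfl | rfl
    · exact hp x hx
    · exact hp x hx
  refine key (key (key (key (key (gauss_chord _) ?_) ?_) ?_) ?_) ?_
  all_goals
    intro x hx
    simp only [List.mem_append, List.mem_cons, List.not_mem_nil, or_false] at hx
    repeat' (rcases hx with hx | hx)
    all_goals
      simp only [pos, neg, flip_label]
      omega

theorem Del.sublist {W D : List Passage} (h : Del W D) : D.Sublist W := by
  cases h with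
  | r1 u v p =>
    rw [List.append_assoc]
    exact (List.Sublist.refl u).append (List.sublist_append_right _ _)
  | r2 u v w p q e₁ e₂ hover hsign =>
    refine List.Sublist.append ?_ (List.Sublist.refl w)
    refine List.Sublist.trans ?_ (List.sublist_append_left _ _)
    exact (List.sublist_append_left _ _).append (List.Sublist.refl v)

theorem Red.sublist {W D : List Passage} (h : Red W D) : D.Sublist W := by
  induction h with
  | refl => exact List.Sublist.refl _
  | tail _ h ih => exact h.sublist.trans ih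

/-- Insertion of blocks in front of three given letters. -/
def ins (x y z : Passage) (G₁ G₂ G₃ : List Passage) (l : Passage) : List Passage :=
  if l = x then G₁ ++ [x] else if l = y then G₂ ++ [y] else if l = z then G₃ ++ [z] else [l]

theorem flatMap_self {f : Passage → List Passage} (L : List Passage)
    (hL : ∀ x ∈ L, f x = [x]) : L.flatMap f = L := by
  induction L with
  | nil => rfl
  | cons a L ih =>
    rw [List.flatMap_cons, hL a (by simp), ih (fun x hx => hL x (by simp [hx]))]
    rfl

theorem ins_flatMap {x y z : Passage} (G₁ G₂ G₃ : List Passage) {A B C F : List Passage}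
    (hn : (A ++ [x] ++ B ++ [y] ++ C ++ [z] ++ F).Nodup) :
    (A ++ [x] ++ B ++ [y] ++ C ++ [z] ++ F).flatMap (ins x y z G₁ G₂ G₃) =
      A ++ (G₁ ++ [x]) ++ B ++ (G₂ ++ [y]) ++ C ++ (G₃ ++ [z]) ++ F := by
  have hp : (A ++ [x] ++ B ++ [y] ++ C ++ [z] ++ F).Perm ([x, y, z] ++ (A ++ B ++ C ++ F)) := by
    have h3 : [x, y, z] = [x] ++ [y] ++ [z] := rfl
    rw [h3, List.perm_iff_count]; intro l
    simp only [List.count_append]; ring
  have hn' := hp.nodup_iff.mp hn
  rw [List.nodup_append] at hn'
  obtain ⟨h1, -, h2⟩ := hn'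
  have hxy : x ≠ y := by
    rintro rfl; simp at h1
  have hxz : x ≠ z := by
    rintro rfl; simp at h1
  have hyz : y ≠ z := by
    rintro rfl; simp at h1
  have key : ∀ l ∈ A ++ B ++ C ++ F, ins x y z G₁ G₂ G₃ l = [l] := by
    intro l hl
    have e1 : l ≠ x := fun h => h2 x (by simp) l hl h.symm
    have e2 : l ≠ y := fun h => h2 y (by simp) l hl h.symm
    have e3 : l ≠ z := fun h => h2 z (by simp) l hl h.symm
    simp [ins, e1, e2, e3]
  have kA : A.flatMap (ins x y z G₁ G₂ G₃) = A :=
    flatMap_self A (fun l hl => key l (by simp [hl]))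
  have kB : B.flatMap (ins x y z G₁ G₂ G₃) = B :=
    flatMap_self B (fun l hl => key l (by simp [hl]))
  have kC : C.flatMap (ins x y z G₁ G₂ G₃) = C :=
    flatMap_self C (fun l hl => key l (by simp [hl]))
  have kF : F.flatMap (ins x y z G₁ G₂ G₃) = F :=
    flatMap_self F (fun l hl => key l (by simp [hl]))
  have kx : ([x] : List Passage).flatMap (ins x y z G₁ G₂ G₃) = G₁ ++ [x] := by
    simp [ins]
  have ky : ([y] : List Passage).flatMap (ins x y z G₁ G₂ G₃) = G₂ ++ [y] := by
    simp [ins, hxy.symm]
  have kz : ([z] : List Passage).flatMap (ins x y z G₁ G₂ G₃) = G₃ ++ [z] := by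
    simp [ins, hxz.symm, hyz.symm]
  simp only [List.flatMap_append, kA, kB, kC, kF, kx, ky, kz]

theorem exists_decomp {x y z : Passage} {E : List Passage} (h : ([x, y, z]).Sublist E) :
    ∃ A B C F, E = A ++ [x] ++ B ++ [y] ++ C ++ [z] ++ F := by
  obtain ⟨r₁, r₂, rfl, hx, h⟩ := List.cons_sublist_iff.mp h
  obtain ⟨r₃, r₄, rfl, hy, h⟩ := List.cons_sublist_iff.mp h
  obtain ⟨r₅, r₆, rfl, hz, h⟩ := List.cons_sublist_iff.mp h
  obtain ⟨A, B, rfl⟩ := List.append_of_mem hx
  obtain ⟨C, D, rfl⟩ := List.append_of_mem hy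
  obtain ⟨F, G, rfl⟩ := List.append_of_mem hz
  exact ⟨A, B ++ C, D ++ F, G ++ r₆, by simp⟩

theorem eqv_r3 {A B C F : List Passage} {a b c : Passage} {e₁ e₂ e₃ : Bool}
    (hab : a.isOver = b.isOver) (hbc : b.isOver = c.isOver)
    (h₂ : e₂ = e₁ ↔ b.sign = c.sign) (h₃ : e₃ = e₁ ↔ a.sign = c.sign)
    (hG : IsGaussWord (A ++ ordered e₁ a b ++ B ++ ordered e₂ a.flip c ++ C ++
      ordered e₃ b.flip c.flip ++ F)) :
    Eqv (A ++ ordered e₁ a b ++ B ++ ordered e₂ a.flip c ++ C ++ ordered e₃ b.flip c.flip ++ F)
      (A ++ ordered (!e₁) a b ++ B ++ ordered (!e₂) a.flip c ++ C ++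
        ordered (!e₃) b.flip c.flip ++ F) := by
  have g1 : IsGaussWord (ordered e₁ a b ++ B ++ ordered e₂ a.flip c ++ C ++
      ordered e₃ b.flip c.flip ++ (F ++ A)) := by
    refine hG.perm ?_
    rw [List.perm_iff_count]; intro l
    simp only [List.count_append]; ring
  have g2 : IsGaussWord (ordered (!e₁) a b ++ B ++ ordered (!e₂) a.flip c ++ C ++
      ordered (!e₃) b.flip c.flip ++ (F ++ A)) := by
    refine g1.perm ?_
    rw [List.perm_iff_count]; intro l
    simp only [List.count_append]
    rw [(ordered_perm e₁ a b).count_eq, (ordered_perm (!e₁) a b).count_eq,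
      (ordered_perm e₂ a.flip c).count_eq, (ordered_perm (!e₂) a.flip c).count_eq,
      (ordered_perm e₃ b.flip c.flip).count_eq, (ordered_perm (!e₃) b.flip c.flip).count_eq]
  have s1 : Eqv (A ++ (ordered e₁ a b ++ B ++ ordered e₂ a.flip c ++ C ++
      ordered e₃ b.flip c.flip ++ F)) ((ordered e₁ a b ++ B ++ ordered e₂ a.flip c ++ C ++
      ordered e₃ b.flip c.flip ++ F) ++ A) := Eqv.rotate (by simpa using hG)
  have s2 := Eqv.of_move g1 g2 (Move.r3 B C (F ++ A) a b c e₁ e₂ e₃ hab hbc h₂ h₃)
  have s3 : Eqv ((ordered (!e₁) a b ++ B ++ ordered (!e₂) a.flip c ++ C ++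
      ordered (!e₃) b.flip c.flip ++ F) ++ A) (A ++ (ordered (!e₁) a b ++ B ++
      ordered (!e₂) a.flip c ++ C ++ ordered (!e₃) b.flip c.flip ++ F)) :=
    Eqv.rotate (by simpa using g2)
  simp only [List.append_assoc] at s1 s2 s3 ⊢
  exact (s1.trans s2).trans s3

theorem fst_mem (e : Bool) (a b : Passage) : fst e a b = a ∨ fst e a b = b := by
  cases e <;> simp [fst]

theorem snd_mem (e : Bool) (a b : Passage) : snd e a b = a ∨ snd e a b = b := by
  cases e <;> simp [snd]

theorem above_r3 {n : ℕ} {E u v w : List Passage} {a b c : Passage} {e₁ e₂ e₃ : Bool}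
    (hab : a.isOver = b.isOver) (hbc : b.isOver = c.isOver)
    (h₂ : e₂ = e₁ ↔ b.sign = c.sign) (h₃ : e₃ = e₁ ↔ a.sign = c.sign)
    (h : Above n E (ordered e₁ a b ++ u ++ ordered e₂ a.flip c ++ v ++
      ordered e₃ b.flip c.flip ++ w)) :
    ∃ E', Eqv E E' ∧ Above n E' (ordered (!e₁) a b ++ u ++ ordered (!e₂) a.flip c ++ v ++
      ordered (!e₃) b.flip c.flip ++ w) := by
  have hD := h.gauss
  -- the labels of the triangle
  have hp : (ordered e₁ a b ++ u ++ ordered e₂ a.flip c ++ v ++
      ordered e₃ b.flip c.flip ++ w).Perm ([a, b, a.flip, c, b.flip, c.flip] ++ (u ++ v ++ w)) := by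
    have h6 : [a, b, a.flip, c, b.flip, c.flip] = [a, b] ++ [a.flip, c] ++ [b.flip, c.flip] := rfl
    rw [h6, List.perm_iff_count]; intro l
    simp only [List.count_append]
    rw [(ordered_perm e₁ a b).count_eq, (ordered_perm e₂ a.flip c).count_eq,
      (ordered_perm e₃ b.flip c.flip).count_eq]
    ring
  have hD' := hD.perm hp
  have hfl : ∀ q ∈ [a, b, a.flip, c, b.flip, c.flip],
      q.flip ∈ [a, b, a.flip, c, b.flip, c.flip] := by
    intro q hq
    simp only [List.mem_cons, List.not_mem_nil, or_false] at hq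
    rcases hq with rfl | rfl | rfl | rfl | rfl | rfl <;> simp
  have hdisj := gauss_disj hD' hfl
  have hn6 := (List.nodup_append.mp hD'.1).1
  have hlab : ∀ p ∈ [a, b, c], ∀ q ∈ [a, b, c], p ≠ q → p.label ≠ q.label := by
    intro p hp q hq hpq hl
    have hp' : p ∈ [a, b, a.flip, c, b.flip, c.flip] ++ (u ++ v ++ w) := by
      simp only [List.mem_cons, List.not_mem_nil, or_false] at hp
      rcases hp with rfl | rfl | rfl <;> simp
    have hq' : q ∈ [a, b, a.flip, c, b.flip, c.flip] ++ (u ++ v ++ w) := by
      simp only [List.mem_cons, List.not_mem_nil, or_false] at hq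
      rcases hq with rfl | rfl | rfl <;> simp
    rcases hD'.2.2 p hp' q hq' hl with h | h
    · exact hpq h.symm
    · have h1 : p.isOver = a.isOver := by
        simp only [List.mem_cons, List.not_mem_nil, or_false] at hp
        rcases hp with rfl | rfl | rfl
        · rfl
        · exact hab.symm
        · exact (hab.trans hbc).symm
      have h2 : q.isOver = a.isOver := by
        simp only [List.mem_cons, List.not_mem_nil, or_false] at hq
        rcases hq with rfl | rfl | rfl
        · rfl
        · exact hab.symm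
        · exact (hab.trans hbc).symm
      have := congrArg Passage.isOver h
      rw [flip_isOver, h1, h2] at this
      simp at this
  have hneab : a ≠ b := by rintro rfl; simp at hn6
  have hneac : a ≠ c := by rintro rfl; simp at hn6
  have hnebc : b ≠ c := by rintro rfl; simp at hn6
  have hlab1 : a.label ≠ b.label := hlab a (by simp) b (by simp) hneab
  have hlac1 : a.label ≠ c.label := hlab a (by simp) c (by simp) hneac
  have hlbc1 : b.label ≠ c.label := hlab b (by simp) c (by simp) hnebc
  obtain ⟨hE, S, hS, hn, hR⟩ := h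
  -- the anchors
  set x := snd e₁ a b with hx
  set y := snd e₂ a.flip c with hy
  set z := snd e₃ b.flip c.flip with hz
  have hDe : ordered e₁ a b ++ u ++ ordered e₂ a.flip c ++ v ++ ordered e₃ b.flip c.flip ++ w =
      [fst e₁ a b] ++ [x] ++ (u ++ [fst e₂ a.flip c]) ++ [y] ++ (v ++ [fst e₃ b.flip c.flip]) ++
      [z] ++ w := by
    rw [ordered_eq, ordered_eq, ordered_eq]; simp [hx, hy, hz]
  have hsub : ([x, y, z]).Sublist (erase S E) := by
    refine List.Sublist.trans ?_ hR.sublist
    rw [hDe]
    have t1 : ([x] : List Passage).Sublist ([fst e₁ a b] ++ [x]) :=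
      List.sublist_append_right _ _
    have t2 : ([y] : List Passage).Sublist ((u ++ [fst e₂ a.flip c]) ++ [y]) :=
      List.sublist_append_right _ _
    have t3 : ([z] : List Passage).Sublist ((v ++ [fst e₃ b.flip c.flip]) ++ [z] ++ w) :=
      (List.sublist_append_right _ _).trans (List.sublist_append_left _ _)
    have := (t1.append t2).append t3
    simpa using this
  have hsubE : ([x, y, z]).Sublist E := hsub.trans List.filter_sublist
  obtain ⟨A, B, C, F, hEd⟩ := exists_decomp hsubE
  have hxS : x.label ∉ S := by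
    have : x ∈ erase S E := hsub.subset (by simp)
    simpa using (List.mem_filter.mp this).2
  have hyS : y.label ∉ S := by
    have : y ∈ erase S E := hsub.subset (by simp)
    simpa using (List.mem_filter.mp this).2
  have hzS : z.label ∉ S := by
    have : z ∈ erase S E := hsub.subset (by simp)
    simpa using (List.mem_filter.mp this).2
  have hWd : erase S E = erase S A ++ [x] ++ erase S B ++ [y] ++ erase S C ++ [z] ++ erase S F := by
    rw [hEd]
    simp only [erase_append]
    rw [erase_of_disj (u := [x]) (by simpa using hxS), erase_of_disj (u := [y])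
      (by simpa using hyS), erase_of_disj (u := [z]) (by simpa using hzS)]
  -- fresh labels
  obtain ⟨N, hN⟩ := exists_bound (labels E)
  have hDE : ∀ l ∈ ordered e₁ a b ++ u ++ ordered e₂ a.flip c ++ v ++
      ordered e₃ b.flip c.flip ++ w, l ∈ E := by
    intro l hl
    exact (List.mem_filter.mp (hR.subset hl)).1
  have hlN : ∀ l ∈ E, l.label < N := fun l hl => hN _ (mem_labels.mpr ⟨l, hl, rfl⟩)
  have haN : a.label < N := hlN a (hDE a (by simp [mem_ordered]))
  have hbN : b.label < N := hlN b (hDE b (by simp [mem_ordered]))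
  have hcN : c.label < N := hlN c (hDE c (by simp [mem_ordered]))
  have hSN : ∀ s ∈ S, s < N := fun s hs => hN _ (hS hs)
  -- the words with parallel copies
  let W' : Bool → Bool → Bool → List Passage := fun f₁ f₂ f₃ =>
    A ++ (gap N e₁ f₁ a b ++ [x]) ++ B ++ (gap N e₂ f₂ a.flip c ++ [y]) ++ C ++
      (gap N e₃ f₃ b.flip c.flip ++ [z]) ++ F
  have hGauss : ∀ f₁ f₂ f₃, IsGaussWord (W' f₁ f₂ f₃) := by
    intro f₁ f₂ f₃
    have hx12 := gauss_three haN hbN hcN hlab1 hlac1 hlbc1
    have hbig := gauss_append hE hx12 (by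
      intro p hp q hq
      have hpN := hlN p hp
      simp only [List.mem_append, List.mem_cons, List.not_mem_nil, or_false] at hq
      repeat' (rcases hq with hq | hq)
      all_goals
        simp only [pos, neg, flip_label]
        omega)
    refine hbig.perm ?_
    rw [List.perm_iff_count]; intro l
    have s2 : ∀ p q : Passage, ([p, q] : List Passage).count l =
        ([p] : List Passage).count l + ([q] : List Passage).count l := by
      intro p q
      rw [← List.count_append]; rfl
    simp only [W', hEd, List.count_append, gap_count, s2, pos_flip, neg_flip]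
    ring
  have hE1 : Eqv E (W' e₁ e₂ e₃) := by
    have hred := red_content (neg N) (pos N) (fun p => rfl) (fun p => rfl) (fun p => rfl)
      (fun p => by simp [pos, neg]) e₁ e₂ e₃ [] [] [] A ([x] ++ B) ([y] ++ C) ([z] ++ F) a b c
    have hgoal : Red (W' e₁ e₂ e₃) E := by
      rw [hEd]
      simp only [W', gap_eq_content]
      simpa only [List.append_assoc, List.append_nil, List.nil_append] using hred
    exact hgoal.eqv (hGauss _ _ _)
  have hE2 : Eqv (W' e₁ e₂ e₃) (W' (!e₁) (!e₂) (!e₃)) := by
    have := eqv_r3 (A := A ++ [neg N (fst e₁ a b)])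
      (B := [neg N (snd e₁ a b)] ++ [x] ++ B ++ [neg N (fst e₂ a.flip c)])
      (C := [neg N (snd e₂ a.flip c)] ++ [y] ++ C ++ [neg N (fst e₃ b.flip c.flip)])
      (F := [neg N (snd e₃ b.flip c.flip)] ++ [z] ++ F)
      (a := pos N a) (b := pos N b) (c := pos N c) (e₁ := e₁) (e₂ := e₂) (e₃ := e₃)
      hab hbc h₂ h₃ (by
        have := hGauss e₁ e₂ e₃
        simpa only [W', gap, List.append_assoc, pos_flip] using this)
    simpa only [W', gap, List.append_assoc, pos_flip] using this
  -- labels of the inserted blocks avoid `S`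
  have hgapS : ∀ (e f : Bool) (p q : Passage), erase S (gap N e f p q) = gap N e f p q := by
    intro e f p q
    refine erase_of_disj ?_
    intro l hl hlS
    have := hSN _ hlS
    simp only [gap, List.mem_append, List.mem_cons, List.not_mem_nil, or_false, mem_ordered] at hl
    repeat' (rcases hl with hl | hl)
    all_goals
      simp only [pos, neg] at this
      omega
  have hWe : erase S (W' (!e₁) (!e₂) (!e₃)) = (erase S E).flatMap
      (ins x y z (gap N e₁ (!e₁) a b) (gap N e₂ (!e₂) a.flip c)
        (gap N e₃ (!e₃) b.flip c.flip)) := by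
    have hnd : (erase S E).Nodup := (isGaussWord_erase hE S).1
    rw [hWd] at hnd ⊢
    rw [ins_flatMap _ _ _ hnd]
    simp only [W', erase_append, hgapS]
    rw [erase_of_disj (u := [x]) (by simpa using hxS), erase_of_disj (u := [y])
      (by simpa using hyS), erase_of_disj (u := [z]) (by simpa using hzS)]
  have hRf : Red ((erase S E).flatMap (ins x y z (gap N e₁ (!e₁) a b) (gap N e₂ (!e₂) a.flip c)
      (gap N e₃ (!e₃) b.flip c.flip))) ((ordered e₁ a b ++ u ++ ordered e₂ a.flip c ++ v ++
      ordered e₃ b.flip c.flip ++ w).flatMap (ins x y z (gap N e₁ (!e₁) a b)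
      (gap N e₂ (!e₂) a.flip c) (gap N e₃ (!e₃) b.flip c.flip))) := by
    refine hR.flatMap (isGaussWord_erase hE S) _ ?_
    intro l _ hl
    have h1 : l ≠ x := by
      rintro rfl; exact hl (by rw [hDe]; simp)
    have h2 : l ≠ y := by
      rintro rfl; exact hl (by rw [hDe]; simp)
    have h3 : l ≠ z := by
      rintro rfl; exact hl (by rw [hDe]; simp)
    simp [ins, h1, h2, h3]
  have hDf : (ordered e₁ a b ++ u ++ ordered e₂ a.flip c ++ v ++
      ordered e₃ b.flip c.flip ++ w).flatMap (ins x y z (gap N e₁ (!e₁) a b)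
      (gap N e₂ (!e₂) a.flip c) (gap N e₃ (!e₃) b.flip c.flip)) =
      [] ++ content id (neg N) e₁ (ordered (!e₁) (pos N a) (pos N b)) a b ++ u ++
      content id (neg N) e₂ (ordered (!e₂) (pos N a.flip) (pos N c)) a.flip c ++ v ++
      content id (neg N) e₃ (ordered (!e₃) (pos N b.flip) (pos N c.flip)) b.flip c.flip ++ w := by
    have hnd := hD.1
    rw [hDe] at hnd ⊢
    rw [ins_flatMap _ _ _ hnd, ← gap_eq_content', ← gap_eq_content', ← gap_eq_content']
    simp only [List.append_assoc, List.nil_append, ← hx, ← hy, ← hz]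
  have hred2 := red_content id (neg N) (fun p => rfl) (fun p => rfl) (fun p => rfl)
      (fun p => rfl) e₁ e₂ e₃ (ordered (!e₁) (pos N a) (pos N b))
      (ordered (!e₂) (pos N a.flip) (pos N c)) (ordered (!e₃) (pos N b.flip) (pos N c.flip))
      [] u v w a b c
  have hAb : Above n (W' (!e₁) (!e₂) (!e₃)) ([] ++ ordered (!e₁) (pos N a) (pos N b) ++ u ++
      ordered (!e₂) (pos N a.flip) (pos N c) ++ v ++
      ordered (!e₃) (pos N b.flip) (pos N c.flip) ++ w) := by
    refine ⟨hGauss _ _ _, S, ?_, hn, ?_⟩
    · refine hS.trans ?_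
      intro t ht
      obtain ⟨l, hl, rfl⟩ := mem_labels.mp ht
      refine mem_labels.mpr ⟨l, ?_, rfl⟩
      rw [hEd] at hl
      simp only [W', List.mem_append] at hl ⊢
      rcases hl with (((((hl | hl) | hl) | hl) | hl) | hl) | hl <;>
        simp only [hl, true_or, or_true]
    · rw [hWe]
      refine Relation.ReflTransGen.trans hRf ?_
      rw [hDf]
      exact hred2
  -- renaming the copies
  have hFN : ∀ t ∈ ({a.label, b.label, c.label} : Finset ℕ), t < N := by
    intro t ht
    simp only [Finset.mem_insert, Finset.mem_singleton] at ht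
    rcases ht with rfl | rfl | rfl <;> assumption
  set σ := shiftPerm {a.label, b.label, c.label} N hFN with hσ
  have hσpos : ∀ p : Passage, p.label ∈ ({a.label, b.label, c.label} : Finset ℕ) →
      (pos N p).rename σ = p := by
    intro p hp
    have h1 : p.label + N ∉ ({a.label, b.label, c.label} : Finset ℕ) := fun h => by
      have := hFN _ h; omega
    have : σ (p.label + N) = p.label := by
      rw [hσ, shiftPerm_apply, if_neg h1, if_pos ⟨by omega, by simpa using hp⟩]
      omega
    cases p
    simp only [pos, Passage.rename] at this ⊢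
    rw [this]
  have hσu : ∀ L : List Passage, (∀ l ∈ L, l ∈ u ++ v ++ w) → L.map (Passage.rename σ) = L := by
    intro L hL
    refine rename_eq_self ?_
    intro l hl
    have hl' := hL l hl
    have hlE : l.label < N := by
      refine hlN l (hDE l ?_)
      have hl2 := hl'
      simp only [List.mem_append] at hl2 ⊢
      rcases hl2 with (hl2 | hl2) | hl2 <;> simp only [hl2, true_or, or_true]
    have hla := hdisj a (by simp) l hl'
    have hlb := hdisj b (by simp) l hl'
    have hlc := hdisj c (by simp) l hl'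
    rw [hσ, shiftPerm_apply, if_neg (by simp [hla, hlb, hlc]), if_neg (by omega)]
  refine ⟨(W' (!e₁) (!e₂) (!e₃)).map (Passage.rename σ),
    (hE1.trans hE2).trans (Eqv.rename (hGauss _ _ _) σ), ?_⟩
  have := hAb.rename σ
  simp only [List.map_append, map_ordered, List.nil_append] at this
  rw [hσpos a (by simp), hσpos b (by simp), hσpos a.flip (by simp), hσpos c (by simp),
    hσpos b.flip (by simp), hσpos c.flip (by simp), hσu u (fun l hl => by simp [hl]),
    hσu v (fun l hl => by simp [hl]), hσu w (fun l hl => by simp [hl])] at this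
  exact this

end third

/-! ### Conclusion -/

section conclusion

theorem transport_step {D D' : Diagram} (h : Step D D') {n : ℕ} {E : List Passage}
    (hE : Above n E D.1) : ∃ E', Eqv E E' ∧ Above n E' D'.1 := by
  obtain ⟨D, hD⟩ := D
  obtain ⟨D', hD'⟩ := D'
  change Move D D' at h
  change Above n E D at hE
  change ∃ E', Eqv E E' ∧ Above n E' D'
  cases h with
  | rotate u v => exact above_rotate hE
  | rename σ w => exact ⟨_, Eqv.rename hE.1 σ, hE.rename σ⟩
  | r1 u p => exact above_r1 hE hD'
  | r2 u v p q e₁ e₂ hover hsign => exact above_r2 hover hsign hE hD'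
  | r3 u v w a b c e₁ e₂ e₃ hab hbc h₂ h₃ => exact above_r3 hab hbc h₂ h₃ hE

theorem transport_step_symm {D D' : Diagram} (h : Step D D') {n : ℕ} {E : List Passage}
    (hE : Above n E D'.1) : ∃ E', Eqv E E' ∧ Above n E' D.1 := by
  obtain ⟨D, hD⟩ := D
  obtain ⟨D', hD'⟩ := D'
  change Move D D' at h
  change Above n E D' at hE
  change ∃ E', Eqv E E' ∧ Above n E' D
  cases h with
  | rotate u v => exact above_rotate hE
  | rename σ w =>
    refine ⟨_, Eqv.rename hE.1 σ.symm, ?_⟩
    have := hE.rename σ.symm
    have hid : (D.map (Passage.rename σ)).map (Passage.rename σ.symm) = D := by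
      rw [List.map_map]
      calc D.map (Passage.rename σ.symm ∘ Passage.rename σ) = D.map id := by
            refine List.map_congr_left ?_
            intro p _
            cases p
            simp [Passage.rename]
        _ = D := by simp
    rwa [hid] at this
  | r1 u p =>
    refine ⟨E, Eqv.refl hE.1, hE.red (Relation.ReflTransGen.single ?_)⟩
    exact Del.r1 [] D p
  | r2 u v p q e₁ e₂ hover hsign =>
    refine ⟨E, Eqv.refl hE.1, hE.red (Relation.ReflTransGen.single ?_)⟩
    exact Del.r2 [] u v p q e₁ e₂ hover hsign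
  | r3 u v w a b c e₁ e₂ e₃ hab hbc h₂ h₃ =>
    have := above_r3 (e₁ := !e₁) (e₂ := !e₂) (e₃ := !e₃) hab hbc
      (by rw [← h₂]; simp) (by rw [← h₃]; simp) hE
    simpa using this

theorem transport {D D' : Diagram} (h : D.knot = D'.knot) {n : ℕ} {E : List Passage}
    (hE : Above n E D.1) : ∃ E', Eqv E E' ∧ Above n E' D'.1 := by
  have hgen : Relation.EqvGen Step D D' := Quot.eqvGen_exact h
  have key : (∀ E : List Passage, Above n E D.1 → ∃ E', Eqv E E' ∧ Above n E' D'.1) ∧
      (∀ E : List Passage, Above n E D'.1 → ∃ E', Eqv E E' ∧ Above n E' D.1) := by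
    clear h hE
    induction hgen with
    | rel x y h => exact ⟨fun E hE => transport_step h hE, fun E hE => transport_step_symm h hE⟩
    | refl x => exact ⟨fun E hE => ⟨E, Eqv.refl hE.1, hE⟩, fun E hE => ⟨E, Eqv.refl hE.1, hE⟩⟩
    | symm x y _ ih => exact ⟨ih.2, ih.1⟩
    | trans x y z _ _ ih1 ih2 =>
      refine ⟨fun E hE => ?_, fun E hE => ?_⟩
      · obtain ⟨E1, h1, h2⟩ := ih1.1 E hE
        obtain ⟨E2, h3, h4⟩ := ih2.1 E1 h2
        exact ⟨E2, h1.trans h3, h4⟩
      · obtain ⟨E1, h1, h2⟩ := ih2.2 E hE
        obtain ⟨E2, h3, h4⟩ := ih1.2 E1 h2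
        exact ⟨E2, h1.trans h3, h4⟩
  exact key.1 E hE

theorem Above.virtualize {n : ℕ} {E D : List Passage} (h : Above n E D) {T : Finset ℕ}
    (hT : T ⊆ labels D) : Above (n + T.card) E (erase T D) := by
  obtain ⟨hE, S, h1, h2, h3⟩ := h
  have hsub : ∀ t ∈ T, ∃ x ∈ E, x.label = t ∧ t ∉ S := by
    intro t ht
    obtain ⟨x, hx, hxt⟩ := mem_labels.mp (hT ht)
    have hx' := List.mem_filter.mp (h3.subset hx)
    refine ⟨x, hx'.1, hxt, ?_⟩
    rw [← hxt]
    simpa using hx'.2
  have hdisj : Disjoint S T := by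
    rw [Finset.disjoint_left]
    intro t htS htT
    obtain ⟨x, -, -, h⟩ := hsub t htT
    exact h htS
  refine ⟨hE, S ∪ T, ?_, by rw [Finset.card_union_of_disjoint hdisj, h2], ?_⟩
  · refine Finset.union_subset h1 ?_
    intro t ht
    obtain ⟨x, hx, hxt, -⟩ := hsub t ht
    exact mem_labels.mpr ⟨x, hx, hxt⟩
  · have h4 := h3.erase (isGaussWord_erase hE S) (T := T) (fun t ht => mem_labels.mp (hT ht))
    have h5 : erase (S ∪ T) E = erase T (erase S E) := by
      simp only [erase, List.filter_filter]
      refine List.filter_congr ?_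
      intro x _
      by_cases hxS : x.label ∈ S <;> by_cases hxT : x.label ∈ T <;> simp [hxS, hxT]
    rw [h5]
    exact h4

theorem Procedure.gather {D : Diagram} {n : ℕ} (h : Procedure D n) :
    ∀ (m : ℕ) (E : List Passage), Above m E D.1 →
      ∃ E', Eqv E E' ∧ Above (m + n) E' [] := by
  induction h with
  | stop D h =>
    intro m E hE
    exact transport h hE
  | moves D D' h n _ ih =>
    intro m E hE
    obtain ⟨E1, h1, h2⟩ := transport h hE
    obtain ⟨E2, h3, h4⟩ := ih m E1 h2
    exact ⟨E2, h1.trans h3, h4⟩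
  | virtualize D S hS n _ ih =>
    intro m E hE
    obtain ⟨E', h1, h2⟩ := ih (m + S.card) E (hE.virtualize hS)
    refine ⟨E', h1, ?_⟩
    rwa [Nat.add_assoc] at h2

/-- One can always unknot by virtualizing all crossings. -/
theorem exists_unknotting (K : VirtualKnot) :
    ∃ D : Diagram, D.knot = K ∧ ∃ S ⊆ D.crossings, (D.virtualize S).knot = unknot := by
  obtain ⟨D, rfl⟩ := Quot.exists_rep K
  refine ⟨D, rfl, D.crossings, Finset.Subset.refl _, ?_⟩
  have : D.virtualize D.crossings = trivialDiagram := by
    refine Subtype.ext ?_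
    change erase D.crossings D.1 = []
    rw [erase, List.filter_eq_nil_iff]
    intro p hp
    simp only [decide_eq_true_eq, not_not]
    exact List.mem_toFinset.mpr (List.mem_map.mpr ⟨p, hp, rfl⟩)
  rw [this]
  rfl

theorem vu_eq_vus (K : VirtualKnot) : vu K = vus K := by
  apply le_antisymm
  · -- every procedure can be replaced by a simultaneous virtualization
    obtain ⟨D₀, hD₀, S₀, hS₀, hS₀'⟩ := exists_unknotting K
    have hne : {n | ∃ D : Diagram, D.knot = K ∧ Procedure D n}.Nonempty :=
      ⟨S₀.card + 0, D₀, hD₀, Procedure.virtualize D₀ S₀ hS₀ 0 (Procedure.stop _ hS₀')⟩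
    obtain ⟨D, hD, hP⟩ := Nat.sInf_mem hne
    have hab : Above 0 D.1 D.1 := by
      refine ⟨D.2, ∅, by simp, by simp, ?_⟩
      rw [erase_of_disj (by simp)]
      exact Relation.ReflTransGen.refl
    obtain ⟨E, ⟨_, hE, hDE⟩, ⟨_, S, hS, hSn, hR⟩⟩ := hP.gather 0 D.1 hab
    refine Nat.sInf_le ⟨⟨E, hE⟩, ?_, S, hS, ?_, ?_⟩
    · rw [← hD, ← hDE]; rfl
    · rw [hSn, Nat.zero_add]; rfl
    · obtain ⟨_, _, h⟩ := hR.eqv (isGaussWord_erase hE S)
      exact h.symm
  · -- a simultaneous virtualization is a procedure
    obtain ⟨D₀, hD₀, S₀, hS₀, hS₀'⟩ := exists_unknotting K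
    have hne : {n | ∃ D : Diagram, D.knot = K ∧ ∃ S ⊆ D.crossings, S.card = n ∧
        (D.virtualize S).knot = unknot}.Nonempty := ⟨S₀.card, D₀, hD₀, S₀, hS₀, rfl, hS₀'⟩
    obtain ⟨D, hD, S, hS, hSn, hSu⟩ := Nat.sInf_mem hne
    refine Nat.sInf_le ⟨D, hD, ?_⟩
    have := Procedure.virtualize D S hS 0 (Procedure.stop _ hSu)
    rw [Nat.add_zero, hSn] at this
    exact this

end conclusion

end Pool.Agent.H.MP_f8820e_gt
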